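import Pool.Agent.N625.PT.K
import Pool.Agent.R501.LP1
import Pool.Agent.T9h51.ME.Ex

/-!
# Least primes in almost all classes, for all the multiples of the moduli near almost all members of families with nearly
minimal additive energy

The families are arbitrary finite families of integers up to `B N` whose additive energy of some order `h` is at most
`log ^ C N` times the least possible one. They may have as few as `N ^ (1 / h)` members. Examples are all sets with
different sums of `h` elements (`h = 2`: Sidon sets) with at least `N ^ (1 / h) / log ^ C N` elements, and the values of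
polynomials of degree `d ≥ 2` at the integers whose digits lie in arbitrary sets of at least two digits.

Method: the large values of the exponential sum of such a family are taken at few frequencies (the moment of order `2 h` is
bounded by the energy), so its multiples have a thin large spectrum (`Pool.Agent.T9h51.ME.ecls_tcls`); the passage from such
spectra to the variance of the primes in the classes of all the multiples is from the starting files
(`Pool.Agent.N625.PT`, `Pool.Agent.Y958`, `Pool.Agent.Y885`). The energy of the polynomial values is from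
`Pool.Agent.T9h51.PD` (a Weyl inequality for polynomials at integers with restricted digits).
-/

set_option autoImplicit false

namespace Pool.Agent.Results.MP_42948a_nt.MinimalEnergyModuli

open Finset Polynomial

open Classical in
/-- The number of the reduced residue classes `a` modulo `d` whose least prime exceeds `x`. -/
noncomputable def lateClasses (x : ℝ) (d : ℕ) : ℕ :=
  ((range d).filter (fun a => Nat.Coprime a d ∧ ∀ p : ℕ, p.Prime → (p : ℝ) ≤ x → ¬ p % d = a)).card

/-- For all real `x` with `d ≤ x ≤ d log ^ T d` the number of the reduced residue classes modulo `d` whose least prime exceeds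
`x` is at most `(1 + ε) φ(d) / (1 + lam)`, where `x = lam φ(d) log d`. -/
def Good (ε : ℝ) (T d : ℕ) : Prop :=
  ∀ x : ℝ, (d : ℝ) ≤ x → x ≤ d * Real.log d ^ T →
    (lateClasses x d : ℝ) * (1 + x / ((Nat.totient d : ℝ) * Real.log d)) ≤ (1 + ε) * (Nat.totient d : ℝ)

/-- All the multiples `g q` with `1 ≤ g ≤ L ^ J` of all the integers `q ≥ 1` with `|q - v| ≤ L ^ W` are good. -/
def AllGood (ε : ℝ) (T W J : ℕ) (L : ℝ) (v : ℤ) : Prop :=
  ∀ q : ℕ, 1 ≤ q → |(q : ℝ) - v| ≤ L ^ W → ∀ g : ℕ, 1 ≤ g → (g : ℝ) ≤ L ^ J → Good ε T (g * q)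

/-- The additive energy of order `h` of a finite family `v` of integers: the number of the solutions of
`v (i 1) + ⋯ + v (i h) = v (j 1) + ⋯ + v (j h)`. -/
noncomputable def energy (h : ℕ) {ι : Type} [Fintype ι] (v : ι → ℤ) : ℕ :=
  Nat.card {q : (Fin h → ι) × (Fin h → ι) // ∑ j, v (q.1 j) = ∑ j, v (q.2 j)}

/-- The sums of `h` elements of `A` are different, up to the order of the summands (`h = 2`: `A` is a Sidon set). -/
def DifferentSums (h : ℕ) (A : Finset ℤ) : Prop :=
  ∀ x y : Fin h → ℤ, (∀ j, x j ∈ A) → (∀ j, y j ∈ A) → ∑ j, x j = ∑ j, y j → ∃ σ : Equiv.Perm (Fin h), ∀ j, x j = y (σ j)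

/-- The integers below `b ^ k` whose `i`-th digit in base `b` belongs to `D i` for all `i < k`. -/
def S (b : ℕ) (D : ℕ → Finset ℕ) (k : ℕ) : Finset ℕ := (range (b ^ k)).filter (fun n : ℕ => ∀ i < k, n / b ^ i % b ∈ D i)

lemma good_of (ε : ℝ) (hε : 0 < ε) (hε1 : ε ≤ 1) (T : ℕ) : ∃ Q₀ : ℕ, ∀ Q : ℕ, Q₀ ≤ Q → (∀ x : ℝ, (Q : ℝ) ≤ x → x ≤ Q * Real.log Q ^ T →
    |Pool.Agent.TH894.PV.G x Q - x * Real.log Q| ≤ ε / 4 * (x * Real.log Q)) → Good ε T Q := by
  obtain ⟨Q₀, h⟩ := Pool.Agent.R501.LP.lpg_of_var T ε hε hε1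
  refine ⟨Q₀ + 2, fun Q hQ hvar x hx1 hx2 => ?_⟩
  exact ((Pool.Agent.R501.LP.lpg_iff ε T Q (by omega)).1 (h Q (by omega) hvar) x hx1 hx2).1

theorem allFam (ε : ℝ) (hε : 0 < ε) (hε1 : ε ≤ 1) (J T U W : ℕ) : Pool.Agent.T9h51.ME.AllFam (Good ε T) J W U := by
  obtain ⟨Q₀, h0⟩ := good_of ε hε hε1 T
  exact Pool.Agent.T9h51.ME.allFam_of fun C hC =>
    Pool.Agent.N625.PT.t_var hC 1 J W T U (ε / 4) (by positivity) (by linarith) (Good ε T) Q₀ h0

open Classical in
/-- **The least primes in almost all classes, for the moduli near families of nearly minimal additive energy.** Let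
`0 < ε ≤ 1` and `J`, `T`, `U`, `W` be fixed. A modulus `d` is good if for all real `x = lam φ(d) log d` with
`d ≤ x ≤ d log ^ T d` all but at most `(1 + ε) φ(d) / (1 + lam)` of the reduced residue classes modulo `d` contain a
prime `≤ x`.

(1) Let `h ≥ 1`, `B`, `C` be fixed and let `N` be large. Let `v i`, `i ∈ ι`, be a finite family of integers with
`|v i| ≤ B N` whose additive energy of order `h` is at most `log ^ C N` times `(#ι) ^ (2 h) / N`. Then for all `i ∈ ι`,
with at most `#ι / log ^ U N` exceptions, ALL the multiples `g q`, `1 ≤ g ≤ log ^ J N`, of ALL the integers `q ≥ 1`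
with `|q - v i| ≤ log ^ W N` are good.

(2) In particular this holds for all sets `A` of integers in `[-B N, B N]` the sums of `h` elements of which are different,
with at least `(N / log ^ C N) ^ (1 / h)` elements (for `h = 2`: for all Sidon sets with at least
`N ^ (1 / 2) / log ^ (C / 2) N` elements): all the elements of `A`, with at most `#A / log ^ U N` exceptions, have this
property.

(3) Let `b ≥ 2`, `d ≥ 2`, `B` and `κ ≠ 0` be fixed and let `k` be large. Then for ALL sets `D 0, …, D (k - 1)` of at least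
two digits in base `b` and ALL polynomials `f` with integer coefficients, of degree `d` and with leading coefficient `κ`,
such that `|f(n)| ≤ B b ^ (d k)` for all `n < b ^ k`: for all the integers `n < b ^ k` whose `i`-th digit lies in `D i` for
all `i < k`, with a proportion of at most `1 / k ^ U` of exceptions, ALL the multiples `g q`, `1 ≤ g ≤ k ^ J`, of ALL the
integers `q ≥ 1` with `|q - f(n)| ≤ k ^ W` are good. -/
theorem result (ε : ℝ) (hε : 0 < ε) (hε1 : ε ≤ 1) (J T U W : ℕ) :
    (∀ h B C : ℕ, 1 ≤ h → ∃ N₀ : ℕ, ∀ N : ℕ, N₀ ≤ N →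
      (∀ (ι : Type) [Fintype ι] (v : ι → ℤ), (∀ i, |v i| ≤ B * N) →
        (energy h v : ℝ) * N ≤ Real.log N ^ C * (Fintype.card ι : ℝ) ^ (2 * h) →
        ((univ.filter (fun i => ¬ AllGood ε T W J (Real.log N) (v i))).card : ℝ) ≤ Fintype.card ι / Real.log N ^ U) ∧
      (∀ A : Finset ℤ, (∀ a ∈ A, |a| ≤ B * N) → DifferentSums h A → (N : ℝ) ≤ Real.log N ^ C * (A.card : ℝ) ^ h →
        ((A.filter (fun a => ¬ AllGood ε T W J (Real.log N) a)).card : ℝ) ≤ A.card / Real.log N ^ U)) ∧
    (∀ b d B : ℕ, 2 ≤ b → 2 ≤ d → ∀ κ : ℤ, κ ≠ 0 → ∃ k₀ : ℕ, ∀ k : ℕ, k₀ ≤ k →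
      ∀ D : ℕ → Finset ℕ, (∀ i < k, D i ⊆ range b ∧ 2 ≤ (D i).card) →
      ∀ f : ℤ[X], f.natDegree = d → f.leadingCoeff = κ → (∀ n < b ^ k, |f.eval (n : ℤ)| ≤ B * ((b ^ (d * k) : ℕ) : ℤ)) →
      (((S b D k).filter (fun n : ℕ => ¬ AllGood ε T W J k (f.eval (n : ℤ)))).card : ℝ) ≤ (S b D k).card / (k : ℝ) ^ U) := by
  have hP := allFam ε hε hε1 J T U W
  refine ⟨fun h B C hh => ?_, fun b d B hb hd κ hκ => ?_⟩
  · obtain ⟨n1, h1⟩ := hP h B C hh
    obtain ⟨n2, h2⟩ := Pool.Agent.T9h51.ME.sidonSet hP h B C hh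
    exact ⟨n1 + n2, fun N hN => ⟨h1 N (by omega), h2 N (by omega)⟩⟩
  · exact Pool.Agent.T9h51.ME.poly hP b d B hb hd κ hκ

end Pool.Agent.Results.MP_42948a_nt.MinimalEnergyModuli
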