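import Pool.Agent.T9h54.CI.Long

/-!
# Least primes of the optimal order of magnitude in the classes of short intervals, for every modulus

For EVERY large modulus `m` a positive proportion of the reduced classes `a` in EVERY interval of length at least
`m ^ 0.584` have `p(a, m) ≤ C φ(m) log m`. For shorter intervals, down to the length `m ^ (3/16 - η)`, this holds for all
but few of the intervals, again for every large `m`.

Tools: the theorems on short intervals with few primes of the starting files (`Pool.Agent.Q278.KT`: Heath-Brown's identity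
and large values of Dirichlet polynomials), with a new choice of the exponents for the first part, and an upper bound sieve
for pairs of primes.
-/

set_option autoImplicit false

namespace Pool.Agent.Results.MP_42948a_nt.OptimalOrderShortIntervals

open Finset
open scoped Classical

/-- `a` is coprime to `m` and some prime `p ≡ a (mod m)` is at most `C φ(m) log m`. -/
def Small (C : ℝ) (m a : ℕ) : Prop := a.Coprime m ∧
  ∃ p : ℕ, p.Prime ∧ p ≡ a [MOD m] ∧ (p : ℝ) ≤ C * m.totient * Real.log m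

/-- At least `c (φ(m)/m) H` of the integers `a` with `u < a ≤ u + H` are coprime to `m` and such that some prime
`p ≡ a (mod m)` is at most `C φ(m) log m`. -/
def Rich (c C : ℝ) (m u H : ℕ) : Prop :=
  c * ((m.totient : ℝ) / m) * H ≤ (((Ioc u (u + H)).filter (Small C m)).card : ℝ)

/-- Chowla's bound for a positive proportion of the classes in short intervals, for every modulus. -/
theorem result :
    (∃ c C : ℝ, 0 < c ∧ 0 < C ∧ ∃ m₀ : ℕ, ∀ m : ℕ, m₀ ≤ m → ∀ u H : ℕ,
      (m : ℝ) ^ (0.584 : ℝ) ≤ H → u + H ≤ m → Rich c C m u H) ∧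
    (∀ θ e : ℝ, (θ = 0.57 ∧ e = 0.045) ∨ (θ = 1 / 2 ∧ e = 0.306) ∨ (θ = 3 / 16 ∧ e = 13 / 16) →
      ∃ c C η : ℝ, 0 < c ∧ 0 < C ∧ 0 < η ∧ ∃ m₀ : ℕ, ∀ m : ℕ, m₀ ≤ m → ∀ H : ℕ,
        (m : ℝ) ^ (θ - η) ≤ H → (H : ℝ) ≤ (m : ℝ) ^ (9 / 10 : ℝ) → ∀ U : Finset ℕ,
        (∀ u ∈ U, u + H ≤ m ∧ ¬ Rich c C m u H) →
        (∀ u ∈ U, ∀ u' ∈ U, u < u' → u + H ≤ u') → (U.card : ℝ) ≤ (m : ℝ) ^ (e - η)) := by
  refine ⟨T9h54.CI.good_all, ?_⟩
  rintro θ e (⟨rfl, rfl⟩ | ⟨rfl, rfl⟩ | ⟨rfl, rfl⟩)
  · have h := T9h54.CI.bad_count (by norm_num) (by norm_num) (by norm_num)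
      Pool.Agent.Q278.KT.mainp_043
    have e1 : (1 - 0.43 : ℝ) = 0.57 := by norm_num
    rw [e1] at h
    exact h
  · have h := T9h54.CI.bad_count (by norm_num) (by norm_num) (by norm_num)
      Pool.Agent.Q278.KT.mainp_half
    have e1 : (1 - 1 / 2 : ℝ) = 1 / 2 := by norm_num
    rw [e1] at h
    exact h
  · have h := T9h54.CI.bad_count (by norm_num) (by norm_num) (by norm_num)
      Pool.Agent.Q278.KT.mainp_1316
    have e1 : (1 - 13 / 16 : ℝ) = 3 / 16 := by norm_num
    rw [e1] at h
    exact h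

end Pool.Agent.Results.MP_42948a_nt.OptimalOrderShortIntervals
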