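import Pool.Agent.T9h59.OR.C
import Pool.Agent.T9h59.CH.Count

/-!
# Chowla's bound in very short intervals of classes, for the moduli near the orders of the subgroups of `F_p^*`

For all `ε, η ∈ (0, 1)` there are `c, κ > 0`, `κ < 1`, such that the following holds. Let `G` be a real sequence with steps
bounded below by a positive constant and growth at most `v^d`, `θ ≥ 0`, `σ = d (1 - κ) + θ < 1` and `0 ≤ γ < 1`. For all
primes `p ≤ X` but `O(X^(1 - ρ))`, `ρ < (1 - γ) (1 - σ) / 2`: for ALL subgroups of `F_p^*` which contain an integer `a`,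
`2 ≤ a ≤ X^γ`, for example those generated by such an integer, with the order `w`, ALL moduli `q ≥ 1` with
`|q - G w| ≤ w^θ` (so also the modulus `w` itself) have the property: at least `c (φ(q)/q) q ^ η` of the integers `b` in
`(β q, β q + q ^ η]` are coprime to `q` and such that some prime `≡ b (mod q)` is less than `q ^ (1 + ε)`. The number of the
`w` which occur is not restricted, one prime has many subgroups of this kind, and one `w` can occur for many primes; the
proof counts the primes with `p ∣ a ^ w - 1` for small `w`, and the cofactors `(p - 1) / w` for large `w` (`T9h59/OR`).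

The number of the exceptional moduli is from the starting theorem `ShortClassIntervals` of this problem, `Good` from the
starting file `MultiplicativeValues`.
-/

set_option autoImplicit false

namespace Pool.Agent.Results.MP_42948a_nt.SubgroupOrders

open Pool.Agent.N733.TG (Expanding expanding_pow)
open Pool.Agent.T9h59.OR (SubOrder sub_good_nat subOrder_orderOf)
open Pool.Agent.Results.MP_42948a_nt.MultiplicativeValues (Good)

/-- **Chowla's bound for the moduli near the orders of the subgroups of `F_p^*`.** For all `ε, η ∈ (0, 1)` there are `c > 0`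
and `κ ∈ (0, 1)` such that for all `β ∈ [0, 1]`: let `G` have steps `≥ a > 0` and growth at most `v ^ d`, let `θ ≥ 0`,
`σ = d (1 - κ) + θ < 1`, `0 ≤ γ < 1` and `ρ < (1 - γ) (1 - σ) / 2`. For all primes `p ≤ X` but `C X^(1 - ρ)`: for the order
`w` of EVERY subgroup of `F_p^*` which contains an integer `a`, `2 ≤ a ≤ X^γ` (`SubOrder (X ^ γ) p w`), ALL moduli `q ≥ 1`
with `|q - G w| ≤ w ^ θ` have the property `Good`: at least `c (φ(q)/q) q ^ η` of the integers `b` in `(β q, β q + q ^ η]`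
are coprime to `q` and such that some prime `≡ b (mod q)` is less than `q ^ (1 + ε)`. The order of `a` modulo `p` is such a
number `w`, and `α v ^ d` with `α > 0`, `d ≥ 1` is an example of `G`. -/
theorem result :
    (∀ ε η : ℝ, 0 < ε → ε < 1 → 0 < η → η < 1 → ∃ c κ : ℝ, 0 < c ∧ 0 < κ ∧ κ < 1 ∧ ∀ β : ℝ, 0 ≤ β → β ≤ 1 →
      ∀ (G : ℕ → ℝ) (d θ : ℝ), Expanding G d → 0 ≤ θ → d * (1 - κ) + θ < 1 →
      ∀ γ ρ : ℝ, 0 ≤ γ → γ < 1 → ρ < (1 - γ) * (1 - (d * (1 - κ) + θ)) / 2 → ∃ C : ℝ, ∀ X : ℕ, 1 ≤ X →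
      ({p : ℕ | p.Prime ∧ p ≤ X ∧ ¬ ∀ w, SubOrder ((X : ℝ) ^ γ) p w → ∀ q : ℕ, 1 ≤ q →
        |(q : ℝ) - G w| ≤ (w : ℝ) ^ θ → Good ε η c β q}.ncard : ℝ) ≤ C * (X : ℝ) ^ (1 - ρ)) ∧
    (∀ (B : ℝ) (p a : ℕ), p.Prime → 2 ≤ a → (a : ℝ) ≤ B → ¬ p ∣ a → SubOrder B p (orderOf (a : ZMod p))) ∧
    ∀ α d : ℝ, 0 < α → 1 ≤ d → Expanding (fun v => α * (v : ℝ) ^ d) d := by
  refine ⟨fun ε η hε hε1 hη hη1 => ?_, fun B p a hp ha haB hpa => subOrder_orderOf hp ha haB hpa,
    fun α d hα hd => expanding_pow hα hd⟩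
  obtain ⟨c, κ, hc, hκ0, hκ1, hcount⟩ := Pool.Agent.T9h59.CH.count ε η hε hε1 hη hη1
  refine ⟨c, κ, hc, hκ0, hκ1, fun β hβ0 hβ1 G d θ hG hθ h1 γ ρ hγ0 hγ1 hρ => ?_⟩
  obtain ⟨C, hC⟩ := sub_good_nat (fun _ => True) (Good ε η c β) hG (s := 1 - κ) (by linarith) hθ h1
    (hcount β hβ0 hβ1) hγ0 hγ1 hρ
  refine ⟨C, fun X hX => le_trans (le_of_eq ?_) (hC X hX)⟩
  simp only [true_imp_iff]

end Pool.Agent.Results.MP_42948a_nt.SubgroupOrders
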