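import Pool.Agent.N760.IT.C
import Pool.Agent.T9h59.CH.Count

/-!
# Chowla's bound in very short intervals of classes, for the moduli along the orbits of Euler's function

For all `ε, η ∈ (0, 1)` there are `c, κ > 0`, `κ < 1`, such that the following holds. Let `f` be a positive multiplicative
function of at most polynomial growth such that `f p ≤ M p` for the large primes `p`, with different values at different large
primes. Let `G` be a real sequence with steps bounded below by a positive constant and growth at most `v^d`, `θ ≥ 0` and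
`d (1 - κ) + θ < 1`. There is `K(m)` tending to infinity such that for almost all `m` and for all `k ≤ K(m)`, with
`v = f(φ_k(m))`, `φ_k` the `k`-th iterate of Euler's function, ALL moduli `q ≥ 1` with `|q - G v| ≤ v ^ θ` (so also
`φ_k(m)` itself) have the property: at least `c (φ(q)/q) q ^ η` of the integers `b` in `(β q, β q + q ^ η]` are coprime to
`q` and such that some prime `≡ b (mod q)` is less than `q ^ (1 + ε)`.

The starting file `MultiplicativeValues` has one multiplicative function and no iterates; the number of the exceptional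
moduli is from the starting theorem `ShortClassIntervals` of this problem; the bounds for preimages are from `N760/IT`.
-/

set_option autoImplicit false

open Filter

namespace Pool.Agent.Results.MP_42948a_nt.TotientOrbits

open Pool.Agent.N733.TG (LM Expanding expanding_pow lm_totient lm_sigma)
open Pool.Agent.N760.IT (orb lm_id orbit_good_nat)
open Pool.Agent.N826.IT.Orb (AlmostAll)
open Pool.Agent.Results.MP_42948a_nt.MultiplicativeValues (Good)

/-- **Chowla's bound for the moduli along the orbits of Euler's function.** For all `ε, η ∈ (0, 1)` there are `c > 0` and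
`κ ∈ (0, 1)` such that for all `β ∈ [0, 1]`: let `f` be multiplicative and positive, of at most polynomial growth, with
`f p ≤ M p` at the large primes, and injective there. Let `G` have steps `≥ a > 0` and growth at most `v ^ d`, and let
`θ ≥ 0`, `d (1 - κ) + θ < 1`. Then there is `K(m)` tending to infinity such that for almost all `m`, for all `k ≤ K(m)`,
with `v = f(φ_k(m))` (`orb f k m`), ALL moduli `q ≥ 1` with `|q - G v| ≤ v ^ θ` have the property `Good`: at least
`c (φ(q)/q) q ^ η` of the integers `b` in `(β q, β q + q ^ η]` are coprime to `q` and such that some prime `≡ b (mod q)` is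
less than `q ^ (1 + ε)`. The identity, Euler's function and the sum of the divisors are examples of such functions `f`, and
`α v ^ d` with `α > 0`, `d ≥ 1` is an example of `G`. -/
theorem result :
    (∀ ε η : ℝ, 0 < ε → ε < 1 → 0 < η → η < 1 → ∃ c κ : ℝ, 0 < c ∧ 0 < κ ∧ κ < 1 ∧ ∀ β : ℝ, 0 ≤ β → β ≤ 1 →
      ∀ f : ℕ → ℕ, LM f → ∀ (G : ℕ → ℝ) (d θ : ℝ), Expanding G d → 0 ≤ θ → d * (1 - κ) + θ < 1 →
      ∃ K : ℕ → ℕ, Tendsto K atTop atTop ∧
        AlmostAll (fun m => ∀ k ≤ K m, ∀ q : ℕ, 1 ≤ q →
          |(q : ℝ) - G (orb f k m)| ≤ (orb f k m : ℝ) ^ θ → Good ε η c β q)) ∧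
    (LM (fun m => m) ∧ LM Nat.totient ∧ LM (fun m => ∑ d ∈ m.divisors, d)) ∧
    ∀ α d : ℝ, 0 < α → 1 ≤ d → Expanding (fun v => α * (v : ℝ) ^ d) d := by
  refine ⟨fun ε η hε hε1 hη hη1 => ?_, ⟨lm_id, lm_totient, lm_sigma⟩, fun α d hα hd => expanding_pow hα hd⟩
  obtain ⟨c, κ, hc, hκ0, hκ1, hcount⟩ := Pool.Agent.T9h59.CH.count ε η hε hε1 hη hη1
  refine ⟨c, κ, hc, hκ0, hκ1, fun β hβ0 hβ1 f hf G d θ hG hθ h1 => ?_⟩
  obtain ⟨K, hK, h⟩ := orbit_good_nat (fun _ => True) (Good ε η c β) hf hG (s := 1 - κ) (by linarith) hθ h1
    (hcount β hβ0 hβ1)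
  exact ⟨K, hK, by simpa only [true_imp_iff] using h⟩

end Pool.Agent.Results.MP_42948a_nt.TotientOrbits
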